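import Pool.Agent.H12.PolyU.T0
set_option maxRecDepth 100000
set_option linter.all false
namespace Pool.Agent.H12.PolyU
open Pool.Agent.Lead.Sat Pool.Agent.Lead.Sat.Tr
noncomputable def tt : Tr := (N (N t0 t1) (N t2 t3))
end Pool.Agent.H12.PolyU
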