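import Pool.Agent.H12.PolyEnc
import Pool.Agent.H12.PolyU.T
set_option maxRecDepth 100000
set_option linter.all false
namespace Pool.Agent.H12.PolyU
open Pool.Agent.Lead.Sat Pool.Agent.Lead.Sat.Tr
theorem s0 : start (clD tt (nat_lit 1200)) (nat_lit 850) Pool.Agent.H12.PolyEnc.F1 (Nat.succ (nat_lit 0)) = true := by decide +kernel
theorem s1 : start (clD tt (nat_lit 1200)) (nat_lit 1358) Pool.Agent.H12.PolyEnc.F2 (Nat.succ (nat_lit 850)) = true := by decide +kernel
end Pool.Agent.H12.PolyU
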